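import Mathlib

/-! # Equations with abelianisation constraints in trace monoids: definitions

The alphabet is `A = {0, …, k-1}` (`Fin k`), the independence relation is
`I : Fin k → Fin k → Prop`. Variables are `x_0, x_1, x_2, …` (indexed by `ℕ`); a finite system
mentions only finitely many of them. -/

namespace Pool.Agent.TraceDP

/-- The defining relations of the trace monoid: `ab = ba` for `(a,b) ∈ I`. -/
def CommRel {k : ℕ} (I : Fin k → Fin k → Prop) (u v : FreeMonoid (Fin k)) : Prop :=
  ∃ a b, I a b ∧ u = FreeMonoid.of a * FreeMonoid.of b ∧ v = FreeMonoid.of b * FreeMonoid.of a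

/-- The trace monoid `M(A,I) = A^* / ⟨ab = ba : (a,b) ∈ I⟩`. -/
abbrev TraceMonoid {k : ℕ} (I : Fin k → Fin k → Prop) : Type := PresentedMonoid (CommRel I)

/-- The abelianisation `π : M(A,I) → ℕ^A` (vector of letter counts), as a homomorphism to the
additive monoid `ℕ^A` written multiplicatively. -/
def abel {k : ℕ} (I : Fin k → Fin k → Prop) :
    TraceMonoid I →* Multiplicative (Fin k → ℕ) :=
  PresentedMonoid.lift (fun a => Multiplicative.ofAdd (Pi.single a 1)) (by
    rintro _ _ ⟨a, b, _, rfl, rfl⟩
    simp only [map_mul]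
    exact mul_comm _ _)

/-- A word over `A ∪ {x_0, x_1, …}`: a letter is `Sum.inl a`, a variable is `Sum.inr i`. -/
abbrev VWord (k : ℕ) : Type := List (Fin k ⊕ ℕ)

/-- A formal sum of constants from `ℕ^A` (`Sum.inl c`) and variables (`Sum.inr i`). -/
abbrev VSum (k : ℕ) : Type := List ((Fin k → ℕ) ⊕ ℕ)

/-- An input of the problem `(DP,ab)`: a finite system `S` of equations over `M` and a finite
system `S'` of equations over `ℕ^A`. -/
abbrev Input (k : ℕ) : Type := List (VWord k × VWord k) × List (VSum k × VSum k)

/-- The value in `M` of a word over `A ∪ {x_0, x_1, …}` under an assignment of the variables. -/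
def evalWord {k : ℕ} (I : Fin k → Fin k → Prop) (m : ℕ → TraceMonoid I) (w : VWord k) :
    TraceMonoid I :=
  (w.map (Sum.elim (PresentedMonoid.of (CommRel I)) m)).prod

/-- The value in `ℕ^A` of a formal sum under an assignment of the variables. -/
def evalSum {k : ℕ} (c : ℕ → Fin k → ℕ) (s : VSum k) : Fin k → ℕ :=
  (s.map (Sum.elim id c)).sum

/-- The input `(S,S')` has a solution: there are `m_0, m_1, … ∈ M` solving `S` such that
`π(m_0), π(m_1), …` solve `S'`. -/
def Solvable {k : ℕ} (I : Fin k → Fin k → Prop) (inp : Input k) : Prop :=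
  ∃ m : ℕ → TraceMonoid I,
    (∀ e ∈ inp.1, evalWord I m e.1 = evalWord I m e.2) ∧
    (∀ e ∈ inp.2, evalSum (fun i => Multiplicative.toAdd (abel I (m i))) e.1 =
      evalSum (fun i => Multiplicative.toAdd (abel I (m i))) e.2)

end Pool.Agent.TraceDP
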