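import Pool.Agent.MP_301441_lc.ZeroSum

/-! # Linear systems over `ℕ`: small solutions and decidability -/

namespace Pool.Agent.TraceDP

open Multiset

/-- a side of a linear equation: natural constants and variables -/
abbrev LSide : Type := List (ℕ ⊕ ℕ)

/-- a linear system -/
abbrev LSys : Type := List (LSide × LSide)

/-- value of a side -/
def lval (x : ℕ → ℕ) (l : LSide) : ℕ := l.foldr (fun t acc => Sum.elim id x t + acc) 0

/-- solvability over `ℕ` -/
def LSolv (sys : LSys) : Prop := ∃ x : ℕ → ℕ, ∀ e ∈ sys, lval x e.1 = lval x e.2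

/-- coefficient of a term: `none` is the constant column -/
def tcoef (t : ℕ ⊕ ℕ) (o : Option ℕ) : ℕ :=
  match t with
  | .inl c => if o = none then c else 0
  | .inr i => if o = some i then 1 else 0

/-- coefficient of a side -/
def coef (l : LSide) (o : Option ℕ) : ℕ := l.foldr (fun t acc => tcoef t o + acc) 0

/-- weight of a side -/
def wt (l : LSide) : ℕ := l.foldr (fun t acc => Sum.elim id (fun _ => 1) t + acc) 0

/-- bound on the variable indices of a side -/
def nv (l : LSide) : ℕ := l.foldr (fun t acc => Sum.elim (fun _ => 0) (fun i => i + 1) t + acc) 0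

theorem coef_le_wt (l : LSide) (o : Option ℕ) : coef l o ≤ wt l := by
  induction l with
  | nil => simp [coef, wt]
  | cons t l ih =>
    simp only [coef, wt, List.foldr_cons] at ih ⊢
    have : tcoef t o ≤ Sum.elim id (fun _ => 1) t := by
      rcases t with c | i
      · simp only [tcoef, Sum.elim_inl, id]; split_ifs <;> omega
      · simp only [tcoef, Sum.elim_inr]; split_ifs <;> omega
    omega

theorem sum_tcoef (X : Multiset (Option ℕ)) (t : ℕ ⊕ ℕ) : (X.map fun o => tcoef t o).sum =
    Sum.elim (fun c => X.count none * c) (fun i => X.count (some i)) t := by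
  induction X using Multiset.induction_on with
  | empty => rcases t with c | i <;> simp
  | cons o X ih =>
    rw [Multiset.map_cons, Multiset.sum_cons, ih]
    rcases t with c | i
    · simp only [tcoef, Sum.elim_inl, Multiset.count_cons]
      by_cases h : o = none
      · simp [h, add_mul, add_comm]
      · simp [h, Ne.symm h]
    · simp only [tcoef, Sum.elim_inr, Multiset.count_cons]
      by_cases h : o = some i
      · simp [h, add_comm]
      · simp [h, Ne.symm h]

theorem sum_coef (X : Multiset (Option ℕ)) (h1 : X.count none = 1) (l : LSide) :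
    (X.map fun o => coef l o).sum = lval (fun i => X.count (some i)) l := by
  induction l with
  | nil => simp [coef, lval]
  | cons t l ih =>
    simp only [coef, lval, List.foldr_cons] at ih ⊢
    rw [Multiset.sum_map_add, ih, sum_tcoef]
    rcases t with c | i <;> simp [h1]

theorem lval_congr {x y : ℕ → ℕ} {l : LSide} (h : ∀ i < nv l, x i = y i) : lval x l = lval y l := by
  induction l with
  | nil => rfl
  | cons t l ih =>
    simp only [lval, nv, List.foldr_cons] at ih h ⊢
    rw [ih fun i hi => h i (by omega)]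
    rcases t with c | i
    · rfl
    · simp only [Sum.elim_inr] at h ⊢
      rw [h i (by omega)]

/-- total weight of a system -/
def Wt (sys : LSys) : ℕ := sys.foldr (fun e acc => wt e.1 + wt e.2 + acc) 0

/-- bound on the variable indices of a system -/
def Nv (sys : LSys) : ℕ := sys.foldr (fun e acc => nv e.1 + nv e.2 + acc) 0

theorem wt_le_Wt (sys : LSys) : ∀ e ∈ sys, wt e.1 + wt e.2 ≤ Wt sys := by
  induction sys with
  | nil => simp
  | cons e sys ih =>
    intro e' he'
    simp only [Wt, List.foldr_cons] at ih ⊢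
    rcases List.mem_cons.1 he' with rfl | he'
    · omega
    · have := ih e' he'
      omega

theorem nv_le_Nv (sys : LSys) : ∀ e ∈ sys, nv e.1 + nv e.2 ≤ Nv sys := by
  induction sys with
  | nil => simp
  | cons e sys ih =>
    intro e' he'
    simp only [Nv, List.foldr_cons] at ih ⊢
    rcases List.mem_cons.1 he' with rfl | he'
    · omega
    · have := ih e' he'
      omega

/-- the bound on a smallest solution -/
def Bd (sys : LSys) : ℕ := BB sys.length (Wt sys)

theorem small_solution (sys : LSys) (h : LSolv sys) :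
    ∃ x : ℕ → ℕ, (∀ i, x i ≤ Bd sys) ∧ (∀ i, Nv sys ≤ i → x i = 0) ∧
      ∀ e ∈ sys, lval x e.1 = lval x e.2 := by
  classical
  -- multisets of columns
  let v : Option ℕ → Fin sys.length → ℤ := fun o e =>
    (coef (sys.get e).1 o : ℤ) - coef (sys.get e).2 o
  have key : ∀ X : Multiset (Option ℕ), X.count none = 1 →
      ((∀ e, (X.map fun i => v i e).sum = 0) ↔
        ∀ e ∈ sys, lval (fun i => X.count (some i)) e.1 = lval (fun i => X.count (some i)) e.2) := by
    intro X hX
    have h1 : ∀ e : Fin sys.length, (X.map fun i => v i e).sum =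
        (lval (fun i => X.count (some i)) (sys.get e).1 : ℤ) -
          lval (fun i => X.count (some i)) (sys.get e).2 := by
      intro e
      rw [← sum_coef X hX, ← sum_coef X hX, Nat.cast_multiset_sum, Nat.cast_multiset_sum,
        Multiset.map_map, Multiset.map_map, ← Multiset.sum_map_sub]
      rfl
    constructor
    · intro H e he
      obtain ⟨i, hi⟩ := List.get_of_mem he
      have := H i
      rw [h1, hi] at this
      omega
    · intro H e
      rw [h1, H _ (List.get_mem _ _)]
      omega
  -- the minimal multiset solution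
  have main : ∀ (n : ℕ) (X : Multiset (Option ℕ)), card X ≤ n → X.count none = 1 →
      (∀ i, Nv sys ≤ i → X.count (some i) = 0) → (∀ e, (X.map fun i => v i e).sum = 0) →
      ∃ Y : Multiset (Option ℕ), card Y ≤ Bd sys ∧ Y.count none = 1 ∧
        (∀ i, Nv sys ≤ i → Y.count (some i) = 0) ∧ (∀ e, (Y.map fun i => v i e).sum = 0) := by
    intro n
    induction n with
    | zero =>
      intro X hX hn h0 hs
      exact ⟨X, by omega, hn, h0, hs⟩
    | succ n ih =>
      intro X hX hn h0 hs
      by_cases hc : card X ≤ Bd sys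
      · exact ⟨X, hc, hn, h0, hs⟩
      push Not at hc
      obtain ⟨Y, hYX, hY0, hYne, hYs⟩ := exists_zero_sum sys.length (Option ℕ) v (Wt sys) X (by
        intro o _ e
        have h1 := coef_le_wt (sys.get e).1 o
        have h2 := coef_le_wt (sys.get e).2 o
        have h3 := wt_le_Wt sys _ (List.get_mem sys e)
        simp only [v]
        rw [abs_le]
        constructor <;> omega) hs hc
      obtain ⟨Z, rfl⟩ := Multiset.le_iff_exists_add.1 hYX
      have hYpos : 0 < card Y := Multiset.card_pos.2 hY0
      have hZ0 : Z ≠ 0 := by rintro rfl; simp at hYne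
      have hZpos : 0 < card Z := Multiset.card_pos.2 hZ0
      rw [Multiset.card_add] at hX
      rw [Multiset.count_add] at hn
      have h0Y : ∀ i, Nv sys ≤ i → Y.count (some i) = 0 := fun i hi => by
        have := h0 i hi; rw [Multiset.count_add] at this; omega
      have h0Z : ∀ i, Nv sys ≤ i → Z.count (some i) = 0 := fun i hi => by
        have := h0 i hi; rw [Multiset.count_add] at this; omega
      by_cases hYn : Y.count none = 1
      · exact ih Y (by omega) hYn h0Y hYs
      · refine ih Z (by omega) (by omega) h0Z fun e => ?_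
        have := hs e
        rw [Multiset.map_add, Multiset.sum_add, hYs e, zero_add] at this
        exact this
  obtain ⟨x, hx⟩ := h
  let X : Multiset (Option ℕ) := none ::ₘ
    (∑ i ∈ Finset.range (Nv sys), Multiset.replicate (x i) (some i))
  have hXn : X.count none = 1 := by
    simp only [X, Multiset.count_cons_self]
    rw [Multiset.count_sum']
    simp [Multiset.count_replicate]
  have hXi : ∀ i, X.count (some i) = if i < Nv sys then x i else 0 := by
    intro i
    simp only [X]
    rw [Multiset.count_cons_of_ne (by simp), Multiset.count_sum']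
    simp only [Multiset.count_replicate, Option.some.injEq]
    rw [Finset.sum_ite_eq' (Finset.range (Nv sys)) i x]
    simp
  obtain ⟨Y, hY1, hY2, hY3, hY4⟩ := main (card X) X le_rfl hXn (by
    intro i hi
    rw [hXi, if_neg (by omega)]) ((key X hXn).2 (by
    intro e he
    have h3 := nv_le_Nv sys e he
    rw [lval_congr (y := x) (l := e.1) fun i hi => by rw [hXi, if_pos (by omega)],
      lval_congr (y := x) (l := e.2) fun i hi => by rw [hXi, if_pos (by omega)]]
    exact hx e he))
  exact ⟨fun i => Y.count (some i), fun i => (Multiset.count_le_card _ _).trans hY1, hY3,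
    (key Y hY2).1 hY4⟩

/-- all lists of length `n` with entries at most `B` -/
def cands (B : ℕ) : ℕ → List (List ℕ)
  | 0 => [[]]
  | n + 1 => (cands B n).flatMap fun l => (List.range (B + 1)).map fun a => a :: l

theorem mem_cands (B : ℕ) : ∀ (n : ℕ) (l : List ℕ), l ∈ cands B n ↔ l.length = n ∧ ∀ a ∈ l, a ≤ B
  | 0, l => by
    simp only [cands, List.mem_singleton, List.length_eq_zero_iff]
    constructor
    · rintro rfl; simp
    · exact fun h => h.1
  | n + 1, l => by
    simp only [cands, List.mem_flatMap, List.mem_map, List.mem_range, mem_cands B n]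
    constructor
    · rintro ⟨l', ⟨h1, h2⟩, a, ha, rfl⟩
      refine ⟨by simp [h1], ?_⟩
      intro b hb
      rcases List.mem_cons.1 hb with rfl | hb
      · omega
      · exact h2 b hb
    · rintro ⟨h1, h2⟩
      rcases l with _ | ⟨a, l⟩
      · simp at h1
      · exact ⟨l, ⟨by simpa using h1, fun b hb => h2 b (List.mem_cons_of_mem _ hb)⟩, a,
          by have := h2 a List.mem_cons_self; omega, rfl⟩

/-- checking a candidate -/
def Check (l : List ℕ) (sys : LSys) : Prop :=
  ∀ e ∈ sys, lval (fun i => l.getD i 0) e.1 = lval (fun i => l.getD i 0) e.2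

theorem lsolv_iff (sys : LSys) : LSolv sys ↔ ∃ l ∈ cands (Bd sys) (Nv sys), Check l sys := by
  constructor
  · intro h
    obtain ⟨x, hxB, hx0, hx⟩ := small_solution sys h
    refine ⟨(List.range (Nv sys)).map x, (mem_cands _ _ _).2 ⟨by simp, ?_⟩, ?_⟩
    · intro a ha
      obtain ⟨i, _, rfl⟩ := List.mem_map.1 ha
      exact hxB i
    · have : (fun i => ((List.range (Nv sys)).map x).getD i 0) = x := by
        funext i
        by_cases hi : i < Nv sys
        · simp [hi]
        · rw [hx0 i (by omega)]
          simp [hi]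
      intro e he
      rw [this]
      exact hx e he
  · rintro ⟨l, _, hl⟩
    exact ⟨_, hl⟩

/-- one step of the computation of the bound -/
def stp (p : ℕ × ℕ) : ℕ × ℕ := (p.1 * (2 * p.1 + 1), p.2 * (2 * p.1 + 1))

theorem iterate_stp (K : ℕ) : ∀ M acc, (stp^[K] (M, acc)).2 = acc * BB K M := by
  induction K with
  | zero => intro M acc; simp [BB]
  | succ K ih =>
    intro M acc
    rw [Function.iterate_succ_apply, stp, ih]
    simp only [BB]
    ring

theorem primrec_stp : Primrec stp := by
  have h1 : Primrec fun p : ℕ × ℕ => 2 * p.1 + 1 :=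
    Primrec.succ.comp (Primrec.nat_mul.comp (Primrec.const 2) Primrec.fst)
  exact Primrec.pair (Primrec.nat_mul.comp Primrec.fst h1) (Primrec.nat_mul.comp Primrec.snd h1)

theorem primrec_BB : Primrec₂ BB := by
  have h : Primrec fun p : ℕ × ℕ => (stp^[p.1] (p.2, 1)).2 :=
    Primrec.snd.comp (Primrec.nat_iterate Primrec.fst (Primrec.pair Primrec.snd (Primrec.const 1))
      (primrec_stp.comp Primrec.snd).to₂)
  exact (h.of_eq fun p => by rw [iterate_stp, one_mul]).to₂

theorem primrec_wt : Primrec wt := by
  have h1 : Primrec fun a : LSide × (ℕ ⊕ ℕ) × ℕ => Sum.elim id (fun _ => 1) a.2.1 :=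
    (Primrec.sumCasesOn (f := fun a : LSide × (ℕ ⊕ ℕ) × ℕ => a.2.1)
      (g := fun _ c => c) (h := fun _ _ => 1) (Primrec.fst.comp Primrec.snd)
      Primrec.snd.to₂ (Primrec.const 1).to₂).of_eq fun a => by rcases a.2.1 with c | i <;> rfl
  have h2 : Primrec fun a : LSide × (ℕ ⊕ ℕ) × ℕ => a.2.2 := Primrec.snd.comp Primrec.snd
  exact Primrec.list_foldr (f := fun l : LSide => l) (g := fun _ => 0)
    (h := fun _ q => Sum.elim id (fun _ => 1) q.1 + q.2) Primrec.id (Primrec.const 0)
    (Primrec.nat_add.comp h1 h2).to₂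

theorem primrec_nv : Primrec nv := by
  have h1 : Primrec fun a : LSide × (ℕ ⊕ ℕ) × ℕ =>
      Sum.elim (fun _ => 0) (fun i => i + 1) a.2.1 :=
    (Primrec.sumCasesOn (f := fun a : LSide × (ℕ ⊕ ℕ) × ℕ => a.2.1)
      (g := fun _ _ => 0) (h := fun _ i => i + 1) (Primrec.fst.comp Primrec.snd)
      (Primrec.const 0).to₂ (Primrec.succ.comp Primrec.snd).to₂).of_eq
      fun a => by rcases a.2.1 with c | i <;> rfl
  have h2 : Primrec fun a : LSide × (ℕ ⊕ ℕ) × ℕ => a.2.2 := Primrec.snd.comp Primrec.snd
  exact Primrec.list_foldr (f := fun l : LSide => l) (g := fun _ => 0)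
    (h := fun _ q => Sum.elim (fun _ => 0) (fun i => i + 1) q.1 + q.2) Primrec.id
    (Primrec.const 0) (Primrec.nat_add.comp h1 h2).to₂

theorem primrec_Wt : Primrec Wt := by
  have h1 : Primrec fun a : LSys × (LSide × LSide) × ℕ => wt a.2.1.1 :=
    primrec_wt.comp (Primrec.fst.comp (Primrec.fst.comp Primrec.snd))
  have h2 : Primrec fun a : LSys × (LSide × LSide) × ℕ => wt a.2.1.2 :=
    primrec_wt.comp (Primrec.snd.comp (Primrec.fst.comp Primrec.snd))
  have h3 : Primrec fun a : LSys × (LSide × LSide) × ℕ => a.2.2 := Primrec.snd.comp Primrec.snd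
  exact Primrec.list_foldr (f := fun l : LSys => l) (g := fun _ => 0)
    (h := fun _ q => wt q.1.1 + wt q.1.2 + q.2) Primrec.id (Primrec.const 0)
    (Primrec.nat_add.comp (Primrec.nat_add.comp h1 h2) h3).to₂

theorem primrec_Nv : Primrec Nv := by
  have h1 : Primrec fun a : LSys × (LSide × LSide) × ℕ => nv a.2.1.1 :=
    primrec_nv.comp (Primrec.fst.comp (Primrec.fst.comp Primrec.snd))
  have h2 : Primrec fun a : LSys × (LSide × LSide) × ℕ => nv a.2.1.2 :=
    primrec_nv.comp (Primrec.snd.comp (Primrec.fst.comp Primrec.snd))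
  have h3 : Primrec fun a : LSys × (LSide × LSide) × ℕ => a.2.2 := Primrec.snd.comp Primrec.snd
  exact Primrec.list_foldr (f := fun l : LSys => l) (g := fun _ => 0)
    (h := fun _ q => nv q.1.1 + nv q.1.2 + q.2) Primrec.id (Primrec.const 0)
    (Primrec.nat_add.comp (Primrec.nat_add.comp h1 h2) h3).to₂

theorem primrec_Bd : Primrec Bd :=
  primrec_BB.comp Primrec.list_length primrec_Wt

theorem primrec_cands : Primrec₂ cands := by
  have h0 : Primrec fun a : ((ℕ × ℕ) × (ℕ × List (List ℕ))) × List ℕ =>
      (List.range (a.1.1.1 + 1)).map fun b => b :: a.2 := by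
    have h1 : Primrec fun a : ((ℕ × ℕ) × (ℕ × List (List ℕ))) × List ℕ =>
        List.range (a.1.1.1 + 1) := Primrec.list_range.comp (Primrec.succ.comp
      (Primrec.fst.comp (Primrec.fst.comp Primrec.fst)))
    have h2 : Primrec₂ fun (a : ((ℕ × ℕ) × (ℕ × List (List ℕ))) × List ℕ) (b : ℕ) => b :: a.2 :=
      (Primrec.list_cons.comp Primrec.snd (Primrec.snd.comp Primrec.fst)).to₂
    exact Primrec.list_map h1 h2
  have h3 : Primrec fun a : (ℕ × ℕ) × (ℕ × List (List ℕ)) => a.2.2 :=
    Primrec.snd.comp Primrec.snd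
  have h : Primrec fun p : ℕ × ℕ => (Nat.rec [[]] (fun _ ih => ih.flatMap fun l =>
      (List.range (p.1 + 1)).map fun a => a :: l) p.2 : List (List ℕ)) :=
    Primrec.nat_rec' (f := fun p : ℕ × ℕ => p.2) (g := fun _ => [[]])
      (h := fun p q => q.2.flatMap fun l => (List.range (p.1 + 1)).map fun a => a :: l)
      Primrec.snd (Primrec.const [[]]) (Primrec.list_flatMap h3 h0.to₂).to₂
  refine (h.of_eq (f := _) (g := fun p : ℕ × ℕ => cands p.1 p.2) fun p => ?_).to₂
  rcases p with ⟨B, n⟩
  induction n with
  | zero => rfl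
  | succ n ih =>
    simp only [cands]
    rw [← ih]

theorem primrec_lval : Primrec₂ fun (l : List ℕ) (s : LSide) => lval (fun i => l.getD i 0) s := by
  have hg : Primrec₂ fun (a : (List ℕ × LSide) × (ℕ ⊕ ℕ) × ℕ) (i : ℕ) => a.1.1.getD i 0 :=
    ((Primrec.list_getD 0).comp (Primrec.fst.comp (Primrec.fst.comp Primrec.fst))
      Primrec.snd).to₂
  have h1 : Primrec fun a : (List ℕ × LSide) × (ℕ ⊕ ℕ) × ℕ =>
      Sum.elim id (fun i => a.1.1.getD i 0) a.2.1 :=
    (Primrec.sumCasesOn (f := fun a : (List ℕ × LSide) × (ℕ ⊕ ℕ) × ℕ => a.2.1)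
      (g := fun _ c => c) (h := fun a i => a.1.1.getD i 0) (Primrec.fst.comp Primrec.snd)
      Primrec.snd.to₂ hg).of_eq fun a => by rcases a.2.1 with c | i <;> rfl
  have h2 : Primrec fun a : (List ℕ × LSide) × (ℕ ⊕ ℕ) × ℕ => a.2.2 :=
    Primrec.snd.comp Primrec.snd
  exact (Primrec.list_foldr (f := fun p : List ℕ × LSide => p.2) (g := fun _ => 0)
    (h := fun p q => Sum.elim id (fun i => p.1.getD i 0) q.1 + q.2)
    Primrec.snd (Primrec.const 0) (Primrec.nat_add.comp h1 h2).to₂).to₂

theorem primrec_check : PrimrecRel Check := by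
  have h : PrimrecRel fun (e : LSide × LSide) (l : List ℕ) =>
      lval (fun i => l.getD i 0) e.1 = lval (fun i => l.getD i 0) e.2 := by
    refine PrimrecRel.comp₂ Primrec.eq ?_ ?_
    · exact (primrec_lval.comp Primrec.snd (Primrec.fst.comp Primrec.fst)).to₂
    · exact (primrec_lval.comp Primrec.snd (Primrec.snd.comp Primrec.fst)).to₂
  exact h.forall_mem_list.swap

theorem primrec_lsolv : PrimrecPred LSolv := by
  have h := (primrec_check.exists_mem_list).comp
    (primrec_cands.comp primrec_Bd primrec_Nv) Primrec.id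
  exact h.of_eq fun sys => (lsolv_iff sys).symm

end Pool.Agent.TraceDP
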