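import Pool.Agent.MP_301441_lc.Defs
import Pool.Agent.MP_301441_lc.Lin

/-! # Decidability of `(DP,ab)` for free commutative monoids -/

namespace Pool.Agent.TraceDP

variable {k : ℕ} {I : Fin k → Fin k → Prop}

theorem mul_comm_of (hI : ∀ a b, a ≠ b → I a b) (x y : TraceMonoid I) : x * y = y * x := by
  have gen : ∀ a b : Fin k, PresentedMonoid.of (CommRel I) a * PresentedMonoid.of (CommRel I) b =
      PresentedMonoid.of (CommRel I) b * PresentedMonoid.of (CommRel I) a := by
    intro a b
    by_cases hab : a = b
    · rw [hab]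
    · exact PresentedMonoid.mk_eq_mk_of_rel ⟨a, b, hI a b hab, rfl, rfl⟩
  have h1 : ∀ (a : Fin k) (y : TraceMonoid I), PresentedMonoid.of (CommRel I) a * y =
      y * PresentedMonoid.of (CommRel I) a := by
    intro a y
    have hy : y ∈ Submonoid.closure (Set.range (PresentedMonoid.of (CommRel I))) := by
      rw [PresentedMonoid.closure_range_of]; trivial
    induction hy using Submonoid.closure_induction with
    | mem z hz => obtain ⟨b, rfl⟩ := hz; exact gen a b
    | one => simp
    | mul u v _ _ hu hv => rw [← mul_assoc, hu, mul_assoc, hv, mul_assoc]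
  have hx : x ∈ Submonoid.closure (Set.range (PresentedMonoid.of (CommRel I))) := by
    rw [PresentedMonoid.closure_range_of]; trivial
  induction hx using Submonoid.closure_induction with
  | mem z hz => obtain ⟨b, rfl⟩ := hz; exact h1 b y
  | one => simp
  | mul u v _ _ hu hv => rw [mul_assoc, hv, ← mul_assoc, hu, mul_assoc]

theorem toAdd_abel_of (a : Fin k) :
    Multiplicative.toAdd (abel I (PresentedMonoid.of (CommRel I) a)) = Pi.single a 1 := rfl

theorem abel_bijective (hI : ∀ a b, a ≠ b → I a b) : Function.Bijective (abel I) := by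
  classical
  let _ : CommMonoid (TraceMonoid I) :=
    { (inferInstance : Monoid (TraceMonoid I)) with mul_comm := mul_comm_of hI }
  let bk : Multiplicative (Fin k → ℕ) →* TraceMonoid I :=
    { toFun := fun c => ∏ a : Fin k, PresentedMonoid.of (CommRel I) a ^ (Multiplicative.toAdd c a)
      map_one' := by simp
      map_mul' := fun c d => by
        rw [← Finset.prod_mul_distrib]
        refine Finset.prod_congr rfl fun a _ => ?_
        rw [← pow_add]
        rfl }
  have hbk : ∀ c, bk c = ∏ a : Fin k, PresentedMonoid.of (CommRel I) a ^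
    (Multiplicative.toAdd c a) := fun _ => rfl
  have h1 : bk.comp (abel I) = MonoidHom.id _ := by
    apply PresentedMonoid.ext
    intro a
    rw [MonoidHom.comp_apply, hbk, toAdd_abel_of, MonoidHom.id_apply]
    rw [Finset.prod_eq_single a]
    · simp
    · intro b _ hb
      simp [hb]
    · intro h; exact absurd (Finset.mem_univ a) h
  have h2 : ∀ c, abel I (bk c) = c := by
    intro c
    rw [hbk, map_prod]
    apply Multiplicative.toAdd.injective
    rw [toAdd_prod]
    funext a
    rw [Finset.sum_apply, Finset.sum_eq_single a]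
    · rw [map_pow, toAdd_pow, toAdd_abel_of]
      simp
    · intro b _ hb
      rw [map_pow, toAdd_pow, toAdd_abel_of]
      simp [Ne.symm hb]
    · intro h; exact absurd (Finset.mem_univ a) h
  constructor
  · intro x y hxy
    have := congrArg bk hxy
    have hx := DFunLike.congr_fun h1 x
    have hy := DFunLike.congr_fun h1 y
    simp only [MonoidHom.comp_apply, MonoidHom.id_apply] at hx hy
    rw [← hx, ← hy, this]
  · intro c
    exact ⟨bk c, h2 c⟩

/-- the `a`-coordinate of a word -/
def sliceW (a : Fin k) (w : VWord k) : LSide := w.map (Sum.map (fun c => if c = a then 1 else 0) id)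

/-- the `a`-coordinate of a sum -/
def sliceS (a : Fin k) (s : VSum k) : LSide := s.map (Sum.map (fun c => c a) id)

/-- the `a`-coordinate of an input -/
def slice (a : Fin k) (inp : Input k) : LSys :=
  inp.1.map (fun e => (sliceW a e.1, sliceW a e.2)) ++
    inp.2.map (fun e => (sliceS a e.1, sliceS a e.2))

theorem lval_sliceW (m : ℕ → TraceMonoid I) (a : Fin k) (w : VWord k) :
    lval (fun i => Multiplicative.toAdd (abel I (m i)) a) (sliceW a w) =
      Multiplicative.toAdd (abel I (evalWord I m w)) a := by
  induction w with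
  | nil => simp [sliceW, lval, evalWord]
  | cons t w ih =>
    simp only [sliceW, lval, evalWord, List.map_cons, List.foldr_cons, List.prod_cons] at ih ⊢
    rw [ih, map_mul, toAdd_mul, Pi.add_apply]
    congr 1
    rcases t with c | i
    · simp only [Sum.map_inl, Sum.elim_inl, id, toAdd_abel_of]
      by_cases h : c = a
      · subst h; simp
      · simp [h, Ne.symm h]
    · simp

theorem lval_sliceS (c : ℕ → Fin k → ℕ) (a : Fin k) (s : VSum k) :
    lval (fun i => c i a) (sliceS a s) = evalSum c s a := by
  induction s with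
  | nil => simp [sliceS, lval, evalSum]
  | cons t s ih =>
    simp only [sliceS, lval, evalSum, List.map_cons, List.foldr_cons, List.sum_cons] at ih ⊢
    rw [ih, Pi.add_apply]
    congr 1
    rcases t with c | i <;> simp

theorem solvable_iff_slices (hI : ∀ a b, a ≠ b → I a b) (inp : Input k) :
    Solvable I inp ↔ ∀ a : Fin k, LSolv (slice a inp) := by
  obtain ⟨hinj, hsurj⟩ := abel_bijective hI
  constructor
  · rintro ⟨m, h1, h2⟩ a
    refine ⟨fun i => Multiplicative.toAdd (abel I (m i)) a, fun e he => ?_⟩
    simp only [slice, List.mem_append, List.mem_map] at he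
    rcases he with ⟨e, he, rfl⟩ | ⟨e, he, rfl⟩
    · simp only
      rw [lval_sliceW, lval_sliceW, h1 e he]
    · simp only
      have := h2 e he
      rw [lval_sliceS (fun i => Multiplicative.toAdd (abel I (m i))),
        lval_sliceS (fun i => Multiplicative.toAdd (abel I (m i))), this]
  · intro h
    choose x hx using h
    choose m hm using fun i : ℕ => hsurj (Multiplicative.ofAdd fun a => x a i)
    have hm' : ∀ a, (fun i => Multiplicative.toAdd (abel I (m i)) a) = x a := by
      intro a
      funext i
      rw [hm]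
      rfl
    refine ⟨m, fun e he => ?_, fun e he => ?_⟩
    · apply hinj
      apply Multiplicative.toAdd.injective
      funext a
      rw [← lval_sliceW, ← lval_sliceW, hm']
      exact hx a _ (List.mem_append_left _ (List.mem_map_of_mem he))
    · funext a
      rw [← lval_sliceS, ← lval_sliceS, hm']
      exact hx a _ (List.mem_append_right _ (List.mem_map_of_mem he))

theorem primrec_sliceW : Primrec₂ (sliceW : Fin k → VWord k → LSide) := by
  have h1 : Primrec₂ fun (p : Fin k × VWord k) (t : Fin k ⊕ ℕ) =>
      (Sum.map (fun c => if c = p.1 then 1 else 0) id t : ℕ ⊕ ℕ) := by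
    have h2 : Primrec₂ fun (q : (Fin k × VWord k) × (Fin k ⊕ ℕ)) (c : Fin k) =>
        (Sum.inl (if c = q.1.1 then 1 else 0) : ℕ ⊕ ℕ) :=
      (Primrec.sumInl.comp (Primrec.ite (Primrec.eq.comp Primrec.snd
        (Primrec.fst.comp (Primrec.fst.comp Primrec.fst))) (Primrec.const 1)
        (Primrec.const 0))).to₂
    have h3 : Primrec₂ fun (q : (Fin k × VWord k) × (Fin k ⊕ ℕ)) (i : ℕ) =>
        (Sum.inr i : ℕ ⊕ ℕ) := (Primrec.sumInr.comp Primrec.snd).to₂
    exact ((Primrec.sumCasesOn (f := fun q : (Fin k × VWord k) × (Fin k ⊕ ℕ) => q.2)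
      Primrec.snd h2 h3).of_eq (g := fun q : (Fin k × VWord k) × (Fin k ⊕ ℕ) =>
        (Sum.map (fun c => if c = q.1.1 then 1 else 0) id q.2 : ℕ ⊕ ℕ))
      fun q => by rcases q with ⟨q, c | i⟩ <;> rfl).to₂
  exact (Primrec.list_map Primrec.snd h1).to₂

theorem primrec_sliceS : Primrec₂ (sliceS : Fin k → VSum k → LSide) := by
  have h1 : Primrec₂ fun (p : Fin k × VSum k) (t : (Fin k → ℕ) ⊕ ℕ) =>
      (Sum.map (fun c => c p.1) id t : ℕ ⊕ ℕ) := by
    have h2 : Primrec₂ fun (q : (Fin k × VSum k) × ((Fin k → ℕ) ⊕ ℕ)) (c : Fin k → ℕ) =>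
        (Sum.inl (c q.1.1) : ℕ ⊕ ℕ) :=
      (Primrec.sumInl.comp (Primrec.fin_app.comp Primrec.snd
        (Primrec.fst.comp (Primrec.fst.comp Primrec.fst)))).to₂
    have h3 : Primrec₂ fun (q : (Fin k × VSum k) × ((Fin k → ℕ) ⊕ ℕ)) (i : ℕ) =>
        (Sum.inr i : ℕ ⊕ ℕ) := (Primrec.sumInr.comp Primrec.snd).to₂
    exact ((Primrec.sumCasesOn (f := fun q : (Fin k × VSum k) × ((Fin k → ℕ) ⊕ ℕ) => q.2)
      Primrec.snd h2 h3).of_eq (g := fun q : (Fin k × VSum k) × ((Fin k → ℕ) ⊕ ℕ) =>
        (Sum.map (fun c => c q.1.1) id q.2 : ℕ ⊕ ℕ))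
      fun q => by rcases q with ⟨q, c | i⟩ <;> rfl).to₂
  exact (Primrec.list_map Primrec.snd h1).to₂

theorem primrec_slice : Primrec₂ (slice : Fin k → Input k → LSys) := by
  have h1 : Primrec₂ fun (p : Fin k × Input k) (e : VWord k × VWord k) =>
      (sliceW p.1 e.1, sliceW p.1 e.2) :=
    (Primrec.pair (primrec_sliceW.comp (Primrec.fst.comp Primrec.fst)
      (Primrec.fst.comp Primrec.snd)) (primrec_sliceW.comp (Primrec.fst.comp Primrec.fst)
      (Primrec.snd.comp Primrec.snd))).to₂
  have h2 : Primrec₂ fun (p : Fin k × Input k) (e : VSum k × VSum k) =>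
      (sliceS p.1 e.1, sliceS p.1 e.2) :=
    (Primrec.pair (primrec_sliceS.comp (Primrec.fst.comp Primrec.fst)
      (Primrec.fst.comp Primrec.snd)) (primrec_sliceS.comp (Primrec.fst.comp Primrec.fst)
      (Primrec.snd.comp Primrec.snd))).to₂
  exact (Primrec.list_append.comp
    (Primrec.list_map (Primrec.fst.comp Primrec.snd) h1)
    (Primrec.list_map (Primrec.snd.comp Primrec.snd) h2)).to₂

/-- `(DP,ab)` is decidable (even primitive recursive) in a free commutative monoid. -/
theorem primrec_solvable (hI : ∀ a b, a ≠ b → I a b) : PrimrecPred (Solvable I) := by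
  have h1 : PrimrecRel fun (a : Fin k) (inp : Input k) => LSolv (slice a inp) :=
    primrec_lsolv.comp primrec_slice
  have h2 := h1.forall_mem_list.comp (Primrec.const (List.finRange k)) Primrec.id
  refine h2.of_eq fun inp => ?_
  rw [solvable_iff_slices hI]
  simp

theorem computable_solvable (hI : ∀ a b, a ≠ b → I a b) : ComputablePred (Solvable I) :=
  (primrec_solvable hI).computablePred

end Pool.Agent.TraceDP
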