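import Pool.Agent.Lib.MRDPh23.Constraints
import Pool.Agent.MP_301441_lc.Defs

/-! # Undecidability of `(DP,ab)` for noncommutative trace monoids -/

namespace Pool.Agent.TraceDP

open Pool.Agent.MRDPh23

/-- commuting words have proportional letter counts -/
theorem count_of_commute {α : Type} [DecidableEq α] (x : α) : ∀ (n : ℕ) (u w : List α),
    u.length + w.length ≤ n → u ++ w = w ++ u → u.length * w.count x = w.length * u.count x := by
  intro n
  induction n with
  | zero =>
    intro u w h _
    have h1 : u = [] := List.length_eq_zero_iff.1 (by omega)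
    have h2 : w = [] := List.length_eq_zero_iff.1 (by omega)
    simp [h1, h2]
  | succ n ih =>
    intro u w h huw
    wlog hle : u.length ≤ w.length generalizing u w
    · exact (this w u (by omega) huw.symm (by omega)).symm
    rcases Nat.eq_zero_or_pos u.length with h0 | h0
    · have h1 : u = [] := List.length_eq_zero_iff.1 h0
      simp [h1]
    · have hp : u <+: w := by
        refine List.prefix_of_prefix_length_le (List.prefix_append u w) ?_ hle
        rw [huw]
        exact List.prefix_append w u
      obtain ⟨w', rfl⟩ := hp
      have h2 : u ++ w' = w' ++ u := by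
        rw [List.append_assoc] at huw
        exact List.append_cancel_left huw
      have h3 := ih u w' (by simp only [List.length_append] at h; omega) h2
      simp only [List.count_append, List.length_append, mul_add, add_mul]
      rw [h3]

section

variable {k : ℕ} {I : Fin k → Fin k → Prop} {a b : Fin k}

/-- erase all letters except `a`, `b` -/
def proj (hab : a ≠ b) (h1 : ¬ I a b) (h2 : ¬ I b a) : TraceMonoid I →* FreeMonoid Bool :=
  PresentedMonoid.lift (fun c => if c = a then FreeMonoid.of true else
    if c = b then FreeMonoid.of false else 1) (by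
    rintro _ _ ⟨c, d, hcd, rfl, rfl⟩
    simp only [map_mul, FreeMonoid.lift_eval_of]
    by_cases hca : c = a
    · subst hca
      by_cases hda : d = c
      · subst hda; rfl
      · by_cases hdb : d = b
        · subst hdb; exact absurd hcd h1
        · simp [hda, hdb]
    · by_cases hcb : c = b
      · subst hcb
        by_cases hda : d = a
        · subst hda; exact absurd hcd h2
        · by_cases hdb : d = c
          · subst hdb; rfl
          · simp [hda, hdb]
      · simp [hca, hcb])

variable (hab : a ≠ b) (h1 : ¬ I a b) (h2 : ¬ I b a)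

theorem proj_a : proj hab h1 h2 (PresentedMonoid.of (CommRel I) a) = FreeMonoid.of true := by
  simp [proj]

theorem proj_b : proj hab h1 h2 (PresentedMonoid.of (CommRel I) b) = FreeMonoid.of false := by
  simp [proj, hab.symm]

theorem abel_of (c : Fin k) : abel I (PresentedMonoid.of (CommRel I) c) =
    Multiplicative.ofAdd (Pi.single c 1) := rfl

theorem count_true (m : TraceMonoid I) :
    (FreeMonoid.toList (proj hab h1 h2 m)).count true = Multiplicative.toAdd (abel I m) a := by
  have : (FreeMonoid.count true).comp (proj hab h1 h2) =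
      (AddMonoidHom.toMultiplicative (Pi.evalAddMonoidHom (fun _ : Fin k => ℕ) a)).comp
        (abel I) := by
    apply PresentedMonoid.ext
    intro c
    simp only [MonoidHom.comp_apply, abel_of]
    by_cases hca : c = a
    · subst hca
      rw [proj_a]
      simp [FreeMonoid.count_of]
    · by_cases hcb : c = b
      · subst hcb
        rw [proj_b]
        simp [FreeMonoid.count_of, Ne.symm hca]
      · have : proj hab h1 h2 (PresentedMonoid.of (CommRel I) c) = 1 := by
          simp [proj, hca, hcb]
        rw [this]
        simp [Ne.symm hca]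
  have h := DFunLike.congr_fun this m
  simp only [MonoidHom.comp_apply] at h
  exact Multiplicative.ofAdd.injective h

theorem count_false (m : TraceMonoid I) :
    (FreeMonoid.toList (proj hab h1 h2 m)).count false = Multiplicative.toAdd (abel I m) b := by
  have : (FreeMonoid.count false).comp (proj hab h1 h2) =
      (AddMonoidHom.toMultiplicative (Pi.evalAddMonoidHom (fun _ : Fin k => ℕ) b)).comp
        (abel I) := by
    apply PresentedMonoid.ext
    intro c
    simp only [MonoidHom.comp_apply, abel_of]
    by_cases hca : c = a
    · subst hca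
      rw [proj_a]
      simp [FreeMonoid.count_of, Ne.symm hab]
    · by_cases hcb : c = b
      · subst hcb
        rw [proj_b]
        simp [FreeMonoid.count_of]
      · have : proj hab h1 h2 (PresentedMonoid.of (CommRel I) c) = 1 := by
          simp [proj, hca, hcb]
        rw [this]
        simp [Ne.symm hcb]
  have h := DFunLike.congr_fun this m
  simp only [MonoidHom.comp_apply] at h
  exact Multiplicative.ofAdd.injective h

theorem commute_key (x : Bool) (m n : TraceMonoid I) (h : m * n = n * m) :
    (FreeMonoid.toList (proj hab h1 h2 m)).length * (FreeMonoid.toList (proj hab h1 h2 n)).count x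
    = (FreeMonoid.toList (proj hab h1 h2 n)).length *
      (FreeMonoid.toList (proj hab h1 h2 m)).count x := by
  refine count_of_commute x _ _ _ le_rfl ?_
  have := congrArg (fun z => FreeMonoid.toList (proj hab h1 h2 z)) h
  simpa [map_mul, FreeMonoid.toList_mul] using this

theorem length_proj (z : TraceMonoid I) : (FreeMonoid.toList (proj hab h1 h2 z)).length =
    Multiplicative.toAdd (abel I z) a + Multiplicative.toAdd (abel I z) b := by
  rw [← count_true hab h1 h2, ← count_false hab h1 h2, List.count_true_add_count_false]

include hab h1 h2 in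
theorem commute_a {m n : TraceMonoid I} (h : m * n = n * m) :
    (Multiplicative.toAdd (abel I m) a + Multiplicative.toAdd (abel I m) b) *
      Multiplicative.toAdd (abel I n) a =
    (Multiplicative.toAdd (abel I n) a + Multiplicative.toAdd (abel I n) b) *
      Multiplicative.toAdd (abel I m) a := by
  have := commute_key hab h1 h2 true m n h
  rwa [length_proj, length_proj, count_true, count_true] at this

include hab h1 h2 in
theorem commute_b {m n : TraceMonoid I} (h : m * n = n * m) :
    (Multiplicative.toAdd (abel I m) a + Multiplicative.toAdd (abel I m) b) *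
      Multiplicative.toAdd (abel I n) b =
    (Multiplicative.toAdd (abel I n) a + Multiplicative.toAdd (abel I n) b) *
      Multiplicative.toAdd (abel I m) b := by
  have := commute_key hab h1 h2 false m n h
  rwa [length_proj, length_proj, count_false, count_false] at this

end

/-- indices of the word variables -/
def vx (i : ℕ) : ℕ := Nat.pair 0 i
def vy (i : ℕ) : ℕ := Nat.pair 1 i
def vq (i : ℕ) : ℕ := Nat.pair 2 i
def vw (i j : ℕ) : ℕ := Nat.pair 3 (Nat.pair i j)

section

variable {k : ℕ} (I : Fin k → Fin k → Prop) (a b : Fin k)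

/-- word equations expressing an elementary constraint -/
def wordEqs : Cstr ℕ → List (VWord k × VWord k)
  | .const i n => [([.inr (vx i)], List.replicate n (.inl a))]
  | .eq i j => [([.inr (vx i)], [.inr (vx j)])]
  | .add i j l => [([.inr (vx i), .inr (vx j)], [.inr (vx l)])]
  | .mul i j l =>
    [([.inr (vx i), .inl a], [.inl a, .inr (vx i)]),
     ([.inr (vx j), .inl a], [.inl a, .inr (vx j)]),
     ([.inr (vx l), .inl a], [.inl a, .inr (vx l)]),
     ([.inr (vy j), .inl b], [.inl b, .inr (vy j)]),
     ([.inr (vq j), .inl a, .inl b], [.inl a, .inl b, .inr (vq j)]),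
     ([.inr (vw i j), .inr (vx i), .inl b], [.inr (vx i), .inl b, .inr (vw i j)])]

/-- additive equations expressing an elementary constraint -/
def sumEqs : Cstr ℕ → List (VSum k × VSum k)
  | .const _ _ => []
  | .eq _ _ => []
  | .add _ _ _ => []
  | .mul i j l =>
    [([.inr (vq j)], [.inr (vx j), .inr (vy j)]),
     ([.inr (vw i j)], [.inr (vx l), .inr (vy j)])]

/-- the assignment of words coming from an assignment of numbers -/
def toWords (x : ℕ → ℕ) (n : ℕ) : TraceMonoid I :=
  let A := PresentedMonoid.of (CommRel I) a
  let B := PresentedMonoid.of (CommRel I) b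
  match n.unpair.1 with
  | 0 => A ^ x n.unpair.2
  | 1 => B ^ x n.unpair.2
  | 2 => (A * B) ^ x n.unpair.2
  | _ => (A ^ x n.unpair.2.unpair.1 * B) ^ x n.unpair.2.unpair.2

theorem toWords_vx (x : ℕ → ℕ) (i : ℕ) : toWords I a b x (vx i) =
    PresentedMonoid.of (CommRel I) a ^ x i := by
  simp [toWords, vx]

theorem toWords_vy (x : ℕ → ℕ) (i : ℕ) : toWords I a b x (vy i) =
    PresentedMonoid.of (CommRel I) b ^ x i := by
  simp [toWords, vy]

theorem toWords_vq (x : ℕ → ℕ) (i : ℕ) : toWords I a b x (vq i) =
    (PresentedMonoid.of (CommRel I) a * PresentedMonoid.of (CommRel I) b) ^ x i := by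
  simp [toWords, vq]

theorem toWords_vw (x : ℕ → ℕ) (i j : ℕ) : toWords I a b x (vw i j) =
    (PresentedMonoid.of (CommRel I) a ^ x i * PresentedMonoid.of (CommRel I) b) ^ x j := by
  simp [toWords, vw]

theorem evalWord_nil (m : ℕ → TraceMonoid I) : evalWord I m [] = 1 := rfl

theorem evalWord_cons (m : ℕ → TraceMonoid I) (t : Fin k ⊕ ℕ) (w : VWord k) :
    evalWord I m (t :: w) = Sum.elim (PresentedMonoid.of (CommRel I)) m t * evalWord I m w := by
  simp [evalWord]

theorem evalWord_replicate (m : ℕ → TraceMonoid I) (n : ℕ) :
    evalWord I m (List.replicate n (.inl a)) = PresentedMonoid.of (CommRel I) a ^ n := by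
  simp [evalWord]

theorem evalSum_nil (c : ℕ → Fin k → ℕ) : evalSum c [] = 0 := rfl

theorem evalSum_cons (c : ℕ → Fin k → ℕ) (t : (Fin k → ℕ) ⊕ ℕ) (s : VSum k) :
    evalSum c (t :: s) = Sum.elim id c t + evalSum c s := by
  simp [evalSum]

/-- completeness of the encoding -/
theorem holds_toWords (x : ℕ → ℕ) (c : Cstr ℕ) (h : c.Holds x) :
    (∀ e ∈ wordEqs a b c, evalWord I (toWords I a b x) e.1 = evalWord I (toWords I a b x) e.2) ∧
    (∀ e ∈ sumEqs c, evalSum (fun i => Multiplicative.toAdd (abel I (toWords I a b x i))) e.1 =
      evalSum (fun i => Multiplicative.toAdd (abel I (toWords I a b x i))) e.2) := by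
  cases c with
  | const i n =>
    refine ⟨?_, by simp [sumEqs]⟩
    simp only [wordEqs, List.mem_singleton, forall_eq, evalWord_cons, evalWord_nil,
      evalWord_replicate, Sum.elim_inr, toWords_vx, mul_one]
    rw [show x i = n from h]
  | eq i j =>
    refine ⟨?_, by simp [sumEqs]⟩
    simp only [wordEqs, List.mem_singleton, forall_eq, evalWord_cons, evalWord_nil,
      Sum.elim_inr, toWords_vx, mul_one]
    rw [show x i = x j from h]
  | add i j l =>
    refine ⟨?_, by simp [sumEqs]⟩
    simp only [wordEqs, List.mem_singleton, forall_eq, evalWord_cons, evalWord_nil,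
      Sum.elim_inr, toWords_vx, mul_one]
    rw [← show x i + x j = x l from h, pow_add]
  | mul i j l =>
    have hl : x i * x j = x l := h
    constructor
    · simp only [wordEqs, List.mem_cons, List.not_mem_nil, or_false, forall_eq_or_imp, forall_eq,
        evalWord_cons, evalWord_nil, Sum.elim_inr, Sum.elim_inl, toWords_vx, toWords_vy,
        toWords_vq, toWords_vw, mul_one]
      refine ⟨?_, ?_, ?_, ?_, ?_, ?_⟩
      · rw [← pow_succ, ← pow_succ']
      · rw [← pow_succ, ← pow_succ']
      · rw [← pow_succ, ← pow_succ']
      · rw [← pow_succ, ← pow_succ']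
      · rw [← pow_succ, ← mul_assoc, ← pow_succ']
      · rw [← pow_succ, ← mul_assoc, ← pow_succ']
    · simp only [sumEqs, List.mem_cons, List.not_mem_nil, or_false, forall_eq_or_imp, forall_eq,
        evalSum_cons, evalSum_nil, Sum.elim_inr, toWords_vx, toWords_vy, toWords_vq, toWords_vw,
        add_zero]
      constructor
      · rw [← toAdd_mul]
        refine congrArg Multiplicative.toAdd ?_
        simp only [map_pow, map_mul, mul_pow]
      · rw [← toAdd_mul]
        refine congrArg Multiplicative.toAdd ?_
        simp only [map_pow, map_mul, mul_pow]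
        rw [← pow_mul, hl]

/-- soundness of the encoding -/
theorem holds_of_words (hab : a ≠ b) (h1 : ¬ I a b) (h2 : ¬ I b a) (m : ℕ → TraceMonoid I)
    (c : Cstr ℕ)
    (hw : ∀ e ∈ wordEqs a b c, evalWord I m e.1 = evalWord I m e.2)
    (hs : ∀ e ∈ sumEqs c, evalSum (fun i => Multiplicative.toAdd (abel I (m i))) e.1 =
      evalSum (fun i => Multiplicative.toAdd (abel I (m i))) e.2) :
    c.Holds fun i => Multiplicative.toAdd (abel I (m (vx i))) a := by
  cases c with
  | const i n =>
    simp only [wordEqs, List.mem_singleton, forall_eq, evalWord_cons, evalWord_nil,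
      evalWord_replicate, Sum.elim_inr, mul_one] at hw
    show Multiplicative.toAdd (abel I (m (vx i))) a = n
    rw [hw, map_pow, abel_of]
    simp
  | eq i j =>
    simp only [wordEqs, List.mem_singleton, forall_eq, evalWord_cons, evalWord_nil,
      Sum.elim_inr, mul_one] at hw
    show Multiplicative.toAdd (abel I (m (vx i))) a = Multiplicative.toAdd (abel I (m (vx j))) a
    rw [hw]
  | add i j l =>
    simp only [wordEqs, List.mem_singleton, forall_eq, evalWord_cons, evalWord_nil,
      Sum.elim_inr, mul_one] at hw
    show Multiplicative.toAdd (abel I (m (vx i))) a + Multiplicative.toAdd (abel I (m (vx j))) a =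
      Multiplicative.toAdd (abel I (m (vx l))) a
    rw [← hw, map_mul]
    simp
  | mul i j l =>
    simp only [wordEqs, List.mem_cons, List.not_mem_nil, or_false, forall_eq_or_imp, forall_eq,
      evalWord_cons, evalWord_nil, Sum.elim_inr, Sum.elim_inl, mul_one] at hw
    simp only [sumEqs, List.mem_cons, List.not_mem_nil, or_false, forall_eq_or_imp, forall_eq,
      evalSum_cons, evalSum_nil, Sum.elim_inr, add_zero] at hs
    obtain ⟨w1, w2, w3, w4, w5, w6⟩ := hw
    obtain ⟨s1, s2⟩ := hs
    have s1a := congrFun s1 a
    have s1b := congrFun s1 b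
    have s2a := congrFun s2 a
    have s2b := congrFun s2 b
    simp only [Pi.add_apply] at s1a s1b s2a s2b
    rw [← mul_assoc] at w5
    have w6' : m (vw i j) * (m (vx i) * PresentedMonoid.of (CommRel I) b) =
      (m (vx i) * PresentedMonoid.of (CommRel I) b) * m (vw i j) := by rw [w6, mul_assoc]
    have w5' : m (vq j) * (PresentedMonoid.of (CommRel I) a * PresentedMonoid.of (CommRel I) b) =
      (PresentedMonoid.of (CommRel I) a * PresentedMonoid.of (CommRel I) b) * m (vq j) := by
      rw [← mul_assoc, w5, mul_assoc]
    have c1 := commute_b hab h1 h2 w1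
    have c2 := commute_b hab h1 h2 w2
    have c3 := commute_b hab h1 h2 w3
    have c4 := commute_a hab h1 h2 w4
    have c5t := commute_a hab h1 h2 w5'
    have c5f := commute_b hab h1 h2 w5'
    have c6t := commute_a hab h1 h2 w6'
    have c6f := commute_b hab h1 h2 w6'
    have hmul : ∀ (z z' : TraceMonoid I) (c : Fin k), Multiplicative.toAdd (abel I (z * z')) c =
      Multiplicative.toAdd (abel I z) c + Multiplicative.toAdd (abel I z') c := by
      intro z z' c
      rw [map_mul]
      rfl
    simp only [hmul, abel_of, toAdd_ofAdd, Pi.single_eq_same, Pi.single_eq_of_ne hab,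
      Pi.single_eq_of_ne hab.symm, mul_zero, mul_one, one_mul, zero_add, add_zero]
      at c1 c2 c3 c4 c5t c5f c6t c6f
    show Multiplicative.toAdd (abel I (m (vx i))) a * Multiplicative.toAdd (abel I (m (vx j))) a =
      Multiplicative.toAdd (abel I (m (vx l))) a
    rw [← c1] at c6t c6f
    rw [← c2] at s1b
    rw [← c3] at s2b
    rw [← c4] at s1a s2a
    rw [zero_add] at s1b s2b
    rw [add_zero] at s1a s2a
    rw [zero_add] at c6t c6f
    rw [mul_one] at c6f
    rw [← s2b] at s1b
    rw [← s1a, ← s2a]
    generalize Multiplicative.toAdd (abel I (m (vx i))) a = xi at *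
    generalize Multiplicative.toAdd (abel I (m (vw i j))) a = wa at *
    generalize Multiplicative.toAdd (abel I (m (vw i j))) b = wb at *
    generalize Multiplicative.toAdd (abel I (m (vq j))) a = qa at *
    generalize Multiplicative.toAdd (abel I (m (vq j))) b = qb at *
    have e1 : qa = wb := by omega
    rw [e1]
    have e2 : (xi + 1) * wa = (xi + 1) * (xi * wb) := by
      rw [← c6t, mul_comm xi wb, ← mul_assoc, ← c6f]
    exact (Nat.eq_of_mul_eq_mul_left (by omega) e2).symm

/-- the input associated with a list of constraints and a value of the distinguished variable -/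
def mkInput (i₀ : ℕ) (L : List (Cstr ℕ)) (n : ℕ) : Input k :=
  (([.inr (vx i₀)], List.replicate n (.inl a)) :: L.flatMap (wordEqs a b), L.flatMap sumEqs)

theorem solvable_mkInput (hab : a ≠ b) (h1 : ¬ I a b) (h2 : ¬ I b a) (i₀ : ℕ)
    (L : List (Cstr ℕ)) (n : ℕ) :
    Solvable I (mkInput a b i₀ L n) ↔ ∃ x : ℕ → ℕ, x i₀ = n ∧ ∀ c ∈ L, c.Holds x := by
  constructor
  · rintro ⟨m, hw, hs⟩
    refine ⟨fun i => Multiplicative.toAdd (abel I (m (vx i))) a, ?_, fun c hc => ?_⟩
    · have := hw _ (List.mem_cons_self)
      exact holds_of_words I a b hab h1 h2 m (.const i₀ n) (by simpa [wordEqs] using this)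
        (by simp [sumEqs])
    · exact holds_of_words I a b hab h1 h2 m c
        (fun e he => hw e (List.mem_cons_of_mem _ (List.mem_flatMap.2 ⟨c, hc, he⟩)))
        (fun e he => hs e (List.mem_flatMap.2 ⟨c, hc, he⟩))
  · rintro ⟨x, hx, hL⟩
    refine ⟨toWords I a b x, fun e he => ?_, fun e he => ?_⟩
    · rcases List.mem_cons.1 he with rfl | he
      · exact (holds_toWords I a b x (.const i₀ n) hx).1 _ (by simp [wordEqs])
      · obtain ⟨c, hc, he⟩ := List.mem_flatMap.1 he
        exact (holds_toWords I a b x c (hL c hc)).1 e he
    · obtain ⟨c, hc, he⟩ := List.mem_flatMap.1 he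
      exact (holds_toWords I a b x c (hL c hc)).2 e he

theorem computable_replicate {α : Type} [Primcodable α] (c : α) :
    Computable fun n : ℕ => List.replicate n c := by
  refine Primrec.to_comp ?_
  refine (Primrec.nat_rec₁ (f := fun _ l => c :: l) ([] : List α)
    (Primrec.list_cons.comp (Primrec.const c) Primrec.snd).to₂).of_eq fun n => ?_
  induction n with
  | zero => rfl
  | succ n ih => rw [List.replicate_succ, ← ih]

theorem computable_mkInput (i₀ : ℕ) (L : List (Cstr ℕ)) :
    Computable (mkInput a b i₀ L : ℕ → Input k) := by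
  unfold mkInput
  refine Computable.pair (Computable.list_cons.comp ?_ (Computable.const _)) (Computable.const _)
  exact Computable.pair (Computable.const _) (computable_replicate _)

/-- `(DP,ab)` is undecidable in a noncommutative trace monoid. -/
theorem not_computable (hab : a ≠ b) (h1 : ¬ I a b) (h2 : ¬ I b a) :
    ¬ ComputablePred (Solvable I) := by
  intro hC
  obtain ⟨p, hp, hnp⟩ := exists_dioph_not_computable
  obtain ⟨i₀, L, hL⟩ := dioph_cstr hp
  apply hnp
  obtain ⟨f, hf, hfe⟩ := ComputablePred.computable_iff.1 hC
  refine ComputablePred.computable_iff.2 ⟨fun n => f (mkInput a b i₀ L n),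
    hf.comp (computable_mkInput a b i₀ L), ?_⟩
  funext n
  rw [hL n, ← solvable_mkInput I a b hab h1 h2, hfe]

end

end Pool.Agent.TraceDP
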