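import Mathlib

/-! # Zero-sum sub-multisets of bounded integer vectors -/

namespace Pool.Agent.TraceDP

open Multiset

/-- reorder a multiset of bounded integers so that all partial sums stay bounded -/
theorem exists_order {ι : Type} (f : ι → ℤ) (M : ℕ) : ∀ (n : ℕ) (X : Multiset ι) (s : ℤ),
    card X = n → (∀ i ∈ X, |f i| ≤ M) → |s| ≤ M → s + (X.map f).sum = 0 →
    ∃ l : List ι, (l : Multiset ι) = X ∧ ∀ j, |s + ((l.take j).map f).sum| ≤ M := by
  classical
  intro n
  induction n with
  | zero =>
    intro X s hX _ hs _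
    have : X = 0 := Multiset.card_eq_zero.1 hX
    subst this
    exact ⟨[], rfl, fun j => by simpa using hs⟩
  | succ n ih =>
    intro X s hX hf hs hsum
    have hne : X ≠ 0 := by
      intro h; rw [h] at hX; simp at hX
    -- choose the next element
    obtain ⟨i, hi, his⟩ : ∃ i ∈ X, |s + f i| ≤ M := by
      by_cases hpos : 0 < s
      · have : ∃ i ∈ X, f i < 0 := by
          by_contra hcon
          push Not at hcon
          have : 0 ≤ (X.map f).sum := Multiset.sum_nonneg (by
            intro y hy
            obtain ⟨i, hi, rfl⟩ := Multiset.mem_map.1 hy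
            exact hcon i hi)
          omega
        obtain ⟨i, hi, hneg⟩ := this
        refine ⟨i, hi, ?_⟩
        have h1 := hf i hi
        rw [abs_le] at h1 hs ⊢
        omega
      · have : ∃ i ∈ X, 0 ≤ f i := by
          by_contra hcon
          push Not at hcon
          have h2 : ∀ Z : Multiset ι, Z ≠ 0 → (∀ i ∈ Z, f i < 0) → (Z.map f).sum < 0 := by
            intro Z
            induction Z using Multiset.induction_on with
            | empty => intro h; exact absurd rfl h
            | cons a Z ihZ =>
              intro _ hZ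
              rw [Multiset.map_cons, Multiset.sum_cons]
              have ha := hZ a (Multiset.mem_cons_self a Z)
              by_cases hZ0 : Z = 0
              · subst hZ0; simpa using ha
              · have := ihZ hZ0 fun i hi => hZ i (Multiset.mem_cons_of_mem hi)
                omega
          have := h2 X hne hcon
          omega
        obtain ⟨i, hi, hneg⟩ := this
        refine ⟨i, hi, ?_⟩
        have h1 := hf i hi
        rw [abs_le] at h1 hs ⊢
        omega
    obtain ⟨Y, rfl⟩ := Multiset.exists_cons_of_mem hi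
    rw [Multiset.card_cons] at hX
    obtain ⟨l, hl, hlj⟩ := ih Y (s + f i) (by omega)
      (fun j hj => hf j (Multiset.mem_cons_of_mem hj)) his (by
        rw [Multiset.map_cons, Multiset.sum_cons] at hsum
        omega)
    refine ⟨i :: l, by rw [← hl]; rfl, fun j => ?_⟩
    rcases j with _ | j
    · simpa using hs
    · have := hlj j
      simp only [List.take_succ_cons, List.map_cons, List.sum_cons]
      rwa [← add_assoc]

/-- a nonempty zero-sum multiset of integers bounded by `M` has a nonempty zero-sum
sub-multiset of size at most `2M+1` -/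
theorem exists_block {ι : Type} (f : ι → ℤ) (M : ℕ) (X : Multiset ι)
    (hf : ∀ i ∈ X, |f i| ≤ M) (hs : (X.map f).sum = 0) (hX : X ≠ 0) :
    ∃ Y ≤ X, Y ≠ 0 ∧ card Y ≤ 2 * M + 1 ∧ (Y.map f).sum = 0 := by
  by_cases hc : card X ≤ 2 * M + 1
  · exact ⟨X, le_rfl, hX, hc, hs⟩
  push Not at hc
  obtain ⟨l, hl, hlj⟩ := exists_order f M (card X) X 0 rfl hf (by simp) (by simpa using hs)
  have hlen : l.length = card X := by rw [← hl]; rfl
  -- pigeonhole on the prefix sums
  obtain ⟨i, hi, j, hj, hij, heq⟩ : ∃ i ∈ Finset.range (2 * M + 2), ∃ j ∈ Finset.range (2 * M + 2),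
      i ≠ j ∧ ((l.take i).map f).sum = ((l.take j).map f).sum := by
    refine Finset.exists_ne_map_eq_of_card_lt_of_maps_to (t := Finset.Icc (-(M : ℤ)) M) ?_ ?_
    · simp only [Int.card_Icc, Finset.card_range]
      omega
    · intro i _
      have := hlj i
      rw [zero_add, abs_le] at this
      simpa using this
  wlog hlt : i < j generalizing i j
  · exact this j hj i hi hij.symm heq.symm (by omega)
  simp only [Finset.mem_range] at hi hj
  let s := (l.take j).drop i
  have htake : l.take j = l.take i ++ s := by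
    have : (l.take j).take i = l.take i := by rw [List.take_take, min_eq_left hlt.le]
    rw [← this]
    exact (List.take_append_drop i (l.take j)).symm
  have hslen : s.length = j - i := by
    simp only [s, List.length_drop, List.length_take]
    omega
  refine ⟨(s : Multiset ι), ?_, ?_, ?_, ?_⟩
  · rw [← hl, Multiset.coe_le]
    exact ((List.drop_sublist _ _).trans (List.take_sublist _ _)).subperm
  · intro h
    have := congrArg card h
    rw [Multiset.coe_card, hslen, Multiset.card_zero] at this
    omega
  · rw [Multiset.coe_card, hslen]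
    omega
  · rw [Multiset.map_coe, Multiset.sum_coe]
    rw [htake, List.map_append, List.sum_append] at heq
    omega

/-- decomposition into short zero-sum blocks -/
theorem exists_blocks {ι : Type} (f : ι → ℤ) (M : ℕ) : ∀ (n : ℕ) (X : Multiset ι), card X ≤ n →
    (∀ i ∈ X, |f i| ≤ M) → (X.map f).sum = 0 →
    ∃ P : Multiset (Multiset ι), P.join = X ∧
      ∀ Y ∈ P, Y ≠ 0 ∧ card Y ≤ 2 * M + 1 ∧ (Y.map f).sum = 0 := by
  classical
  intro n
  induction n with
  | zero =>
    intro X hX _ _
    have : X = 0 := Multiset.card_eq_zero.1 (by omega)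
    subst this
    exact ⟨0, by simp, by simp⟩
  | succ n ih =>
    intro X hX hf hs
    by_cases h0 : X = 0
    · subst h0
      exact ⟨0, by simp, by simp⟩
    obtain ⟨Y, hYX, hY0, hYc, hYs⟩ := exists_block f M X hf hs h0
    obtain ⟨Z, rfl⟩ := Multiset.le_iff_exists_add.1 hYX
    have hYpos : 0 < card Y := Multiset.card_pos.2 hY0
    rw [Multiset.card_add] at hX
    rw [Multiset.map_add, Multiset.sum_add, hYs, zero_add] at hs
    obtain ⟨P, hP, hPb⟩ := ih Z (by omega) (fun i hi => hf i (Multiset.mem_add.2 (Or.inr hi))) hs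
    refine ⟨Y ::ₘ P, by rw [Multiset.join_cons, hP], fun W hW => ?_⟩
    rcases Multiset.mem_cons.1 hW with rfl | hW
    · exact ⟨hY0, hYc, hYs⟩
    · exact hPb W hW

/-- the bound -/
def BB : ℕ → ℕ → ℕ
  | 0, _ => 1
  | K + 1, M => (2 * M + 1) * BB K (M * (2 * M + 1))

/-- a large zero-sum multiset of bounded integer vectors has a nontrivial zero-sum part -/
theorem exists_zero_sum (K : ℕ) : ∀ (ι : Type) (v : ι → Fin K → ℤ) (M : ℕ) (X : Multiset ι),
    (∀ i ∈ X, ∀ e, |v i e| ≤ M) → (∀ e, (X.map fun i => v i e).sum = 0) → BB K M < card X →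
    ∃ Y ≤ X, Y ≠ 0 ∧ Y ≠ X ∧ ∀ e, (Y.map fun i => v i e).sum = 0 := by
  classical
  induction K with
  | zero =>
    intro ι v M X _ _ hc
    simp only [BB] at hc
    have hX : X ≠ 0 := by intro h; rw [h] at hc; simp at hc
    obtain ⟨i, hi⟩ := Multiset.exists_mem_of_ne_zero hX
    refine ⟨{i}, Multiset.singleton_le.2 hi, Multiset.singleton_ne_zero i, ?_,
      fun e => e.elim0⟩
    intro h
    rw [← h] at hc
    simp at hc
  | succ K ih =>
    intro ι v M X hv hs hc
    obtain ⟨P, hP, hPb⟩ := exists_blocks (fun i => v i 0) M (card X) X le_rfl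
      (fun i hi => hv i hi 0) (hs 0)
    let v' : Multiset ι → Fin K → ℤ := fun Y e => (Y.map fun i => v i e.succ).sum
    have hmem : ∀ Y ∈ P, ∀ i ∈ Y, i ∈ X := by
      intro Y hY i hi
      rw [← hP]
      exact Multiset.mem_join.2 ⟨Y, hY, hi⟩
    have hcard : card X ≤ (2 * M + 1) * card P := by
      rw [← hP, Multiset.card_join]
      have := Multiset.sum_le_card_nsmul (P.map card) (2 * M + 1) (by
        intro x hx
        obtain ⟨Y, hY, rfl⟩ := Multiset.mem_map.1 hx
        exact (hPb Y hY).2.1)
      rw [Multiset.card_map, smul_eq_mul, mul_comm] at this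
      exact this
    have hcP : BB K (M * (2 * M + 1)) < card P := by
      simp only [BB] at hc
      exact Nat.lt_of_mul_lt_mul_left (a := 2 * M + 1) (by omega)
    obtain ⟨Q, hQP, hQ0, hQne, hQs⟩ := ih (Multiset ι) v' (M * (2 * M + 1)) P (by
        intro Y hY e
        have h1 : |v' Y e| ≤ (Y.map fun i => |v i e.succ|).sum := by
          have := Multiset.abs_sum_le_sum_abs (s := Y.map fun i => v i e.succ)
          rwa [Multiset.map_map] at this
        refine h1.trans ?_
        have h2 := Multiset.sum_le_card_nsmul (Y.map fun i => |v i e.succ|) (M : ℤ) (by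
          intro x hx
          obtain ⟨i, hi, rfl⟩ := Multiset.mem_map.1 hx
          exact hv i (hmem Y hY i hi) _)
        refine h2.trans ?_
        rw [Multiset.card_map, nsmul_eq_mul]
        have h3 : ((card Y : ℕ) : ℤ) ≤ ((2 * M + 1 : ℕ) : ℤ) := by exact_mod_cast (hPb Y hY).2.1
        push_cast at h3 ⊢
        nlinarith) (by
        intro e
        have h1 := hs e.succ
        rw [← hP, Multiset.map_join, Multiset.sum_join, Multiset.map_map] at h1
        exact h1) hcP
    obtain ⟨R, rfl⟩ := Multiset.le_iff_exists_add.1 hQP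
    have hR0 : R ≠ 0 := by rintro rfl; simp at hQne
    have hjoin0 : ∀ Z : Multiset (Multiset ι), Z ≠ 0 → (∀ Y ∈ Z, Y ≠ 0) → 0 < card Z.join := by
      intro Z hZ hY
      obtain ⟨Y, hYZ⟩ := Multiset.exists_mem_of_ne_zero hZ
      obtain ⟨i, hi⟩ := Multiset.exists_mem_of_ne_zero (hY Y hYZ)
      exact Multiset.card_pos_iff_exists_mem.2 ⟨i, Multiset.mem_join.2 ⟨Y, hYZ, hi⟩⟩
    have hQpos := hjoin0 Q hQ0 fun Y hY => (hPb Y (Multiset.mem_add.2 (Or.inl hY))).1
    have hRpos := hjoin0 R hR0 fun Y hY => (hPb Y (Multiset.mem_add.2 (Or.inr hY))).1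
    rw [Multiset.join_add] at hP
    refine ⟨Q.join, ?_, Multiset.card_pos.1 hQpos, ?_, fun e => ?_⟩
    · rw [← hP]; exact Multiset.le_add_right _ _
    · intro h
      have := congrArg card hP
      rw [Multiset.card_add, h] at this
      omega
    · rw [Multiset.map_join, Multiset.sum_join, Multiset.map_map]
      refine Fin.cases ?_ (fun e => ?_) e
      · refine Multiset.sum_eq_zero fun x hx => ?_
        obtain ⟨Y, hY, rfl⟩ := Multiset.mem_map.1 hx
        exact (hPb Y (Multiset.mem_add.2 (Or.inl hY))).2.2
      · exact hQs e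

end Pool.Agent.TraceDP
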